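import Pool.Agent.Lib.MP_ea3264_an.Bridge2

/-!
# Strong amenability of a locally compact quantum group and of its dual

Let `𝔾` be a second countable locally compact quantum group, given by its data
`G = (W, J, Ĵ, P^{it})` on the separable Hilbert space `H = L²(𝔾)` (Kustermans-Vaes). Then both
`𝔾` and its dual are strongly amenable if and only if there is a `w*`-continuous convolution
semigroup of states `(μ_t)` on `𝔾` with

* (i) `‖λ̃(ω ⋆ μ_t - μ_t)‖ → 0` as `t → ∞` for every state `ω ∈ L¹(𝔾)`,
* (ii) `‖λ̃(μ_t)‖ = 1` for all `t > 0`,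
* (iii) `μ_t ∈ L¹(𝔾)` for all `t > 0`.
-/

namespace Pool.Agent.Results.MP_ea3264_an.StrongAmenability

open LCQG.Stmt

theorem result {H K L : Type*} [NormedAddCommGroup H] [InnerProductSpace ℂ H] [CompleteSpace H]
    [NormedAddCommGroup K] [InnerProductSpace ℂ K] [CompleteSpace K]
    [NormedAddCommGroup L] [InnerProductSpace ℂ L] [CompleteSpace L]
    [Nontrivial H] [TopologicalSpace.SeparableSpace H] (G : QGroup H K L) :
    (CoAmenable G.t G.W ∧ DualCoAmenable G.t G.W) ↔ HasStateSemigroup G.t G.W G.U :=
  LCQG.Bridge.main_stmt G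

end Pool.Agent.Results.MP_ea3264_an.StrongAmenability
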